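import Pool.Agent.W819.NC.Stm

/-!
# NC-TWO3: assembly for near points
-/

namespace Pool.Agent.W310.NC
open H974 Finset Pool.Agent.W819.EN Pool.Agent.W819.NC

lemma bx_mono (v : Vtx) {k l : ℤ} (h : k ≤ l) : bx v k ⊆ bx v l := by
  unfold bx
  exact RE_subset (by omega) (by omega) (by omega) (by omega)

lemma pw1 {t s : ℝ} (ht : 0 < t) (hs : 1 ≤ s) (h1 : t ≤ s) (h2 : 1 / t ≤ s) {x y z : ℕ}
    (hxy : x ≤ y) (hz : y ≤ x + z) : t ^ x ≤ t ^ y * s ^ z ∧ t ^ y ≤ t ^ x * s ^ z := by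
  obtain ⟨k, rfl⟩ := Nat.exists_eq_add_of_le hxy
  have hk : k ≤ z := by omega
  have hx0 : 0 < t ^ x := pow_pos ht x
  have hsz : s ^ k ≤ s ^ z := pow_le_pow_right₀ hs hk
  have hs0 : 0 < s := by linarith
  rw [pow_add]
  constructor
  · have h3 : 1 ≤ t ^ k * s ^ z := by
      have h4 : 1 ≤ (t * s) ^ k := by
        apply one_le_pow₀
        rw [div_le_iff₀ ht] at h2
        linarith
      calc (1 : ℝ) ≤ (t * s) ^ k := h4
        _ = t ^ k * s ^ k := mul_pow _ _ _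
        _ ≤ t ^ k * s ^ z := mul_le_mul_of_nonneg_left hsz (pow_nonneg ht.le _)
    calc t ^ x = t ^ x * 1 := (mul_one _).symm
      _ ≤ t ^ x * (t ^ k * s ^ z) := mul_le_mul_of_nonneg_left h3 hx0.le
      _ = t ^ x * t ^ k * s ^ z := by ring
  · have h3 : t ^ k ≤ s ^ z := (pow_le_pow_left₀ ht.le h1 k).trans hsz
    exact mul_le_mul_of_nonneg_left h3 hx0.le

theorem t_TWO3 {N : NT} {W : WT} {K : KT} (h : Sys N W K) (hl : LocG N) (hd : Dec)
    (hz : ZPc N W) (hp : Pw N W) : Two3 N := by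
  intro t1 t2 ht1 ht2
  obtain ⟨s, hs, hs1, hs2, hs3, hs4⟩ : ∃ s : ℝ, 1 ≤ s ∧ t1 ≤ s ∧ 1 / t1 ≤ s ∧ t2 ≤ s ∧
      1 / t2 ≤ s := by
    have a1 : 0 < 1 / t1 := by positivity
    have a2 : 0 < 1 / t2 := by positivity
    exact ⟨1 + t1 + 1 / t1 + t2 + 1 / t2, by linarith, by linarith, by linarith, by linarith,
      by linarith⟩
  have hs0 : 0 < s := by linarith
  have ht12 : 0 < t1 * t2 := mul_pos ht1 ht2
  obtain ⟨A, hA, hAz⟩ := hz (t1 * t2) (s ^ 14) ht12 (one_le_pow₀ hs)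
  refine ⟨A + s ^ (14 * 756), by positivity, ?_⟩
  intro v w D n S hD1 hD64 hDn hvw1 hvw2 hS
  have hw1 : |w.1 - v.1| ≤ (D : ℤ) := by rw [abs_sub_comm]; exact hvw1
  have hw2 : |w.2 - v.2| ≤ (D : ℤ) := by rw [abs_sub_comm]; exact hvw2
  have hv1 : |v.1 - v.1| ≤ (D : ℤ) := by simp
  have hv2 : |v.2 - v.2| ≤ (D : ℤ) := by simp
  have hSb : bx v ((n - D : ℕ) : ℤ) ⊆ S := (bx_mono v (by omega)).trans hS
  have hU : Ex P2 S (fun F => (t1 * t2) ^ N F v (4 * D) (n - D)) =
      G N (t1 * t2) (4 * D) (n - D) := hl (t1 * t2) v (4 * D) (n - D) S (by omega) hSb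
  obtain ⟨zv1, zv2, zv3, zv4, zv5⟩ := hAz v v D n S hD1 hDn hv1 hv2 hS
  have zw1 := (hAz v w D n S hD1 hDn hw1 hw2 hS).1
  rw [← hU] at zv1 zv2 zv3 zv4 zv5 zw1
  have hU0 : 0 ≤ Ex P2 S (fun F => (t1 * t2) ^ N F v (4 * D) (n - D)) :=
    Ex_nonneg (fun _ => ⟨by norm_num, by norm_num⟩) (fun F _ => (pow_pos ht12 _).le)
  rw [← hU]
  set X : ℕ → Finset Edg → ℕ := fun j F =>
    if j = 0 then 756 else if j = 1 then W F v (3 * D) else if j = 2 then W F w (3 * D)
    else if j = 3 then N F v (2 * D) (8 * D) else if j = 4 then W F v (4 * D)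
    else if j = 5 then W F v ((n - D) / 2) else N F v ((n - D) / 2) (n + D) with hX
  have hkey := hd s (A + s ^ (14 * 756)) 7 S (fun F => (t1 * t2) ^ N F v (4 * D) (n - D))
    (fun F => t1 ^ N F v 0 n * t2 ^ N F w 0 n) (fun j F => 2 * X j F) hs (by norm_num)
    (by positivity) (fun F => pow_pos ht12 _) ?_ ?_
  · exact ⟨hkey.1, hkey.2⟩
  · intro j hj
    have hadd : A * Ex P2 S (fun F => (t1 * t2) ^ N F v (4 * D) (n - D)) ≤
        (A + s ^ (14 * 756)) * Ex P2 S (fun F => (t1 * t2) ^ N F v (4 * D) (n - D)) :=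
      mul_le_mul_of_nonneg_right (by linarith [pow_pos hs0 (14 * 756)]) hU0
    have e : ∀ x : ℕ, s ^ (7 * (2 * x)) = (s ^ 14) ^ x := by
      intro x
      rw [← pow_mul]
      congr 1
      ring
    simp only [e]
    interval_cases j
    · simp only [hX, if_true]
      rw [Ex_mul_right, mul_comm, ← pow_mul]
      exact mul_le_mul_of_nonneg_right (by linarith) hU0
    · refine le_trans ?_ hadd
      simpa [hX] using zv1
    · refine le_trans ?_ hadd
      simpa [hX] using zw1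
    · refine le_trans ?_ hadd
      simpa [hX] using zv2
    · refine le_trans ?_ hadd
      simpa [hX] using zv3
    · refine le_trans ?_ hadd
      simpa [hX] using zv4
    · refine le_trans ?_ hadd
      simpa [hX] using zv5
  · intro F _
    obtain ⟨pv1, pv2, -⟩ := hp F v v D n hD1 hDn hv1 hv2
    obtain ⟨pw1', pw2', -⟩ := hp F v w D n hD1 hDn hw1 hw2
    have qv := pv1 0 (by omega)
    have qw := pw1' 0 (by omega)
    have lv := h.geo.le F v 0 (6 * D)
    have lw := h.geo.le F w 0 (6 * D)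
    have hsum : ∑ j ∈ range 7, 2 * X j F =
        (756 + W F v (3 * D) + N F v (2 * D) (8 * D) + W F v (4 * D) + W F v ((n - D) / 2) +
          N F v ((n - D) / 2) (n + D)) +
        (756 + W F v (3 * D) + 2 * W F w (3 * D) + N F v (2 * D) (8 * D) + W F v (4 * D) +
          W F v ((n - D) / 2) + N F v ((n - D) / 2) (n + D)) := by
      simp [Finset.sum_range_succ, hX]
      ring
    have b1 := pw1 (x := N F v (4 * D) (n - D)) (y := N F v 0 n)
      (z := 756 + W F v (3 * D) + N F v (2 * D) (8 * D) + W F v (4 * D) + W F v ((n - D) / 2) +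
          N F v ((n - D) / 2) (n + D)) ht1 hs hs1 hs2 (by omega) (by omega)
    have b2 := pw1 (x := N F v (4 * D) (n - D)) (y := N F w 0 n)
      (z := 756 + W F v (3 * D) + 2 * W F w (3 * D) + N F v (2 * D) (8 * D) + W F v (4 * D) +
          W F v ((n - D) / 2) + N F v ((n - D) / 2) (n + D)) ht2 hs hs3 hs4 (by omega) (by omega)
    simp only [hsum, mul_pow]
    rw [pow_add s (756 + W F v (3 * D) + N F v (2 * D) (8 * D) + W F v (4 * D) +
      W F v ((n - D) / 2) + N F v ((n - D) / 2) (n + D))]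
    generalize 756 + W F v (3 * D) + N F v (2 * D) (8 * D) + W F v (4 * D) +
      W F v ((n - D) / 2) + N F v ((n - D) / 2) (n + D) = z1 at b1 ⊢
    generalize 756 + W F v (3 * D) + 2 * W F w (3 * D) + N F v (2 * D) (8 * D) + W F v (4 * D) +
          W F v ((n - D) / 2) + N F v ((n - D) / 2) (n + D) = z2 at b2 ⊢
    constructor
    · calc t1 ^ N F v (4 * D) (n - D) * t2 ^ N F v (4 * D) (n - D)
          ≤ (t1 ^ N F v 0 n * s ^ z1) * (t2 ^ N F w 0 n * s ^ z2) :=
            mul_le_mul b1.1 b2.1 (pow_pos ht2 _).le (by positivity)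
        _ = _ := by ring
    · calc t1 ^ N F v 0 n * t2 ^ N F w 0 n
          ≤ (t1 ^ N F v (4 * D) (n - D) * s ^ z1) * (t2 ^ N F v (4 * D) (n - D) * s ^ z2) :=
            mul_le_mul b1.2 b2.2 (pow_pos ht2 _).le (by positivity)
        _ = _ := by ring

end Pool.Agent.W310.NC
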